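import Pool.Agent.R413.SQ.Stm

/-!
# Gluing of good sets of primes
-/

set_option autoImplicit false

open scoped Classical symmDiff

namespace Pool.Agent.U150.XH

open Finset
open Pool.Agent.R413.SQ (mk cu Sol Gd)
open Pool.Agent.Y703.CQ (nr)

theorem gd_of {f : ℕ → ZMod 2} {A B : Finset ℕ} (hd : Disjoint A B)
    (h1 : ∀ a ∈ A, mk a = 1 → ∀ b ∈ B, nr a b = 0)
    (h2 : ∀ b ∈ B, mk b = 1 → ∀ a ∈ A, nr b a = 0)
    (h : Gd f (A ∪ B)) : Gd f A := by
  intro x hx p hp hm
  have hs : Sol f (A ∪ B) (fun q => if q ∈ A then x q else 0) := by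
    intro q hq hm'
    have hcu : ∀ r ∈ A, cu (fun q => if q ∈ A then x q else 0) r = cu x r := by
      intro r hr
      unfold cu
      simp only [if_pos hr]
    have hcu' : ∀ r ∈ B, cu (fun q => if q ∈ A then x q else 0) r = 0 := by
      intro r hr
      unfold cu
      simp only [if_neg (Finset.disjoint_right.1 hd hr), ite_self]
    rw [sum_union hd]
    by_cases hqA : q ∈ A
    · have e1 : ∑ r ∈ B, nr q r * (cu (fun q => if q ∈ A then x q else 0) r +
          (fun q => if q ∈ A then x q else 0) q) = 0 :=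
        sum_eq_zero fun r hr => by rw [h1 q hqA hm' r hr, zero_mul]
      have e2 : ∑ r ∈ A, nr q r * (cu (fun q => if q ∈ A then x q else 0) r +
          (fun q => if q ∈ A then x q else 0) q) = ∑ r ∈ A, nr q r * (cu x r + x q) :=
        sum_congr rfl fun r hr => by
          rw [hcu r hr]
          simp only [if_pos hqA]
      rw [e1, e2, add_zero]
      simp only [if_pos hqA]
      exact hx q hqA hm'
    · have hqB : q ∈ B := (mem_union.1 hq).resolve_left hqA
      have e1 : ∑ r ∈ A, nr q r * (cu (fun q => if q ∈ A then x q else 0) r +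
          (fun q => if q ∈ A then x q else 0) q) = 0 :=
        sum_eq_zero fun r hr => by rw [h2 q hqB hm' r hr, zero_mul]
      have e2 : ∑ r ∈ B, nr q r * (cu (fun q => if q ∈ A then x q else 0) r +
          (fun q => if q ∈ A then x q else 0) q) = 0 :=
        sum_eq_zero fun r hr => by
          rw [hcu' r hr]
          simp only [if_neg hqA, add_zero, mul_zero]
      rw [e1, e2, add_zero]
      simp only [if_neg hqA, mul_zero, add_zero]
  have := h _ hs p (mem_union_left _ hp) hm
  simpa only [if_pos hp] using this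

/-- gluing -/
theorem gd_union {f : ℕ → ZMod 2} {A B : Finset ℕ} (hd : Disjoint A B)
    (h1 : ∀ a ∈ A, mk a = 1 → ∀ b ∈ B, nr a b = 0)
    (h2 : ∀ b ∈ B, mk b = 1 → ∀ a ∈ A, nr b a = 0) :
    Gd f (A ∪ B) ↔ Gd f A ∧ Gd f B := by
  refine ⟨fun h => ⟨gd_of hd h1 h2 h, gd_of hd.symm h2 h1 (by rwa [union_comm])⟩, ?_⟩
  rintro ⟨hA, hB⟩ x hx p hp hm
  rcases mem_union.1 hp with hp | hp
  · refine hA x (fun q hq hm' => ?_) p hp hm
    have h := hx q (mem_union_left _ hq) hm'
    rw [sum_union hd, sum_eq_zero (s := B) (fun r hr => by rw [h1 q hq hm' r hr, zero_mul]),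
      add_zero] at h
    exact h
  · refine hB x (fun q hq hm' => ?_) p hp hm
    have h := hx q (mem_union_right _ hq) hm'
    rw [sum_union hd, sum_eq_zero (s := A) (fun r hr => by rw [h2 q hq hm' r hr, zero_mul]),
      zero_add] at h
    exact h

/-- the set `N` is neutral for `P` -/
def Neu (P N : Finset ℕ) : Prop :=
  Disjoint N P ∧ (∀ a ∈ N, mk a = 1 → ∀ b ∈ P, nr a b = 0) ∧
    ∀ b ∈ P, mk b = 1 → ∀ a ∈ N, nr b a = 0

/-- **the twist by the product of the elements of a subset of `P`** -/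
theorem gd_symm {f : ℕ → ZMod 2} {P N U : Finset ℕ} (h : Neu P N) (hU : U ⊆ P) :
    Gd f (N ∆ U) ↔ Gd f N ∧ Gd f U := by
  have hd : Disjoint N U := disjoint_of_subset_right hU h.1
  have h0 : N ∆ U = N ∪ U := by
    rw [hd.symmDiff_eq_sup]
    rfl
  rw [h0]
  exact gd_union hd (fun a ha hm b hb => h.2.1 a ha hm b (hU hb))
    fun b hb hm a ha => h.2.2 b (hU hb) hm a ha

end Pool.Agent.U150.XH
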