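import Pool.Agent.U150.XG.Law
import Pool.Agent.U150.XH.Glue
import Pool.Agent.R413.SQ.Dns

/-!
# Successive prime twists of `X_0(49)` which are neutral for a finite set `P` of primes

`P` is a finite set of primes `1 mod 4`. The primes used for the twists are `1 mod 4` and not in `P`;
those that split in `ℚ(√-7)` are squares modulo all the elements of `P`, those that are inert are
squares modulo the split elements of `P`. For the products `N` of such primes the matrix of the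
twist by `N ∏ U`, `U ⊆ P`, is nonsingular if and only if those of `N` and of `∏ U` are.

The parameter `e` adds the conditions `1 mod 8` (split) and `5 mod 8` (inert).
-/

set_option autoImplicit false

open scoped Classical ENNReal symmDiff

namespace Pool.Agent.U150.XH

open Filter Matrix Finset
open Pool.Agent.R413.SQ (Gd)
open Pool.Agent.Y703.CQ (nr)
open Pool.Agent.Y698.SG (n4)
open Pool.Agent.U150.XG (nsq En MM exists_en lo up ns Dat lo_main up_main PR SR pf_mul)
open Pool.Agent.U150.RG (mE)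
open Pool.Agent.U687.Q2 (pt UU TT mu ph cor prob)

/-- split in `ℚ(√-7)` -/
def S7 (p : ℕ) : Prop := p % 7 = 1 ∨ p % 7 = 2 ∨ p % 7 = 4

/-- inert in `ℚ(√-7)` -/
def I7 (p : ℕ) : Prop := p % 7 = 3 ∨ p % 7 = 5 ∨ p % 7 = 6

theorem mk_iff (p : ℕ) : Pool.Agent.R413.SQ.mk p = 1 ↔ S7 p := by
  unfold Pool.Agent.R413.SQ.mk S7
  split_ifs with h
  · exact ⟨fun _ => h, fun _ => rfl⟩
  · exact ⟨fun h' => absurd h' (by norm_num), fun h' => absurd h' h⟩

/-- the residue modulo `8` -/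
def rs : Bool → ℕ
  | true => 1
  | false => 5

/-- the kinds of the primes -/
def Kd (P : Finset ℕ) (e : Bool) : Bool → ℕ → Prop
  | true, p => p % 4 = 1 ∧ (e = true → p % 8 = 1) ∧ S7 p ∧ ∀ q ∈ P, IsSquare (p : ZMod q) ∧ ¬ q ∣ p
  | false, p => p % 4 = 1 ∧ (e = true → p % 8 = 5) ∧ I7 p ∧
      ∀ q ∈ P, (S7 q → IsSquare (p : ZMod q)) ∧ ¬ q ∣ p

/-- the modulus -/
def QQ (P : Finset ℕ) : ℕ := 56 * ∏ q ∈ P, q

theorem dvd_QQ {P : Finset ℕ} {q : ℕ} (hq : q ∈ P) : q ∣ QQ P :=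
  (Finset.dvd_prod_of_mem _ hq).mul_left _

theorem kd_mod (P : Finset ℕ) (e s : Bool) (p : ℕ) : Kd P e s (p % QQ P) ↔ Kd P e s p := by
  have h56 : 56 ∣ QQ P := Dvd.intro _ rfl
  have h8 : p % QQ P % 8 = p % 8 := Nat.mod_mod_of_dvd _ (Dvd.dvd.trans (by norm_num) h56)
  have h4 : p % QQ P % 4 = p % 4 := Nat.mod_mod_of_dvd _ (Dvd.dvd.trans (by norm_num) h56)
  have h7 : p % QQ P % 7 = p % 7 := Nat.mod_mod_of_dvd _ (Dvd.dvd.trans (by norm_num) h56)
  have hs : ∀ q ∈ P, (IsSquare ((p % QQ P : ℕ) : ZMod q) ↔ IsSquare (p : ZMod q)) := by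
    intro q hq
    have h1 : ((p % QQ P : ℕ) : ZMod q) = (p : ZMod q) := by
      rw [ZMod.natCast_eq_natCast_iff]
      exact (Nat.mod_modEq p (QQ P)).of_dvd (dvd_QQ hq)
    rw [h1]
  have hd : ∀ q ∈ P, (q ∣ p % QQ P ↔ q ∣ p) := fun q hq => Nat.dvd_mod_iff (dvd_QQ hq)
  cases s
  · show (p % QQ P % 4 = 1 ∧ (e = true → p % QQ P % 8 = 5) ∧ I7 (p % QQ P) ∧
      ∀ q ∈ P, (S7 q → IsSquare ((p % QQ P : ℕ) : ZMod q)) ∧ ¬ q ∣ p % QQ P) ↔
      (p % 4 = 1 ∧ (e = true → p % 8 = 5) ∧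
      I7 p ∧ ∀ q ∈ P, (S7 q → IsSquare (p : ZMod q)) ∧ ¬ q ∣ p)
    unfold I7
    rw [h4, h8, h7]
    refine and_congr_right fun _ => and_congr_right fun _ => and_congr_right fun _ =>
      forall₂_congr fun q hq => ?_
    rw [hs q hq, hd q hq]
  · show (p % QQ P % 4 = 1 ∧ (e = true → p % QQ P % 8 = 1) ∧ S7 (p % QQ P) ∧
      ∀ q ∈ P, IsSquare ((p % QQ P : ℕ) : ZMod q) ∧ ¬ q ∣ p % QQ P) ↔
      (p % 4 = 1 ∧ (e = true → p % 8 = 1) ∧ S7 p ∧ ∀ q ∈ P, IsSquare (p : ZMod q) ∧ ¬ q ∣ p)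
    unfold S7
    rw [h4, h8, h7]
    refine and_congr_right fun _ => and_congr_right fun _ => and_congr_right fun _ =>
      forall₂_congr fun q hq => ?_
    rw [hs q hq, hd q hq]

theorem not_both {P : Finset ℕ} {e : Bool} {p : ℕ} (h : Kd P e true p) : ¬ Kd P e false p := by
  intro h'
  have h1 : S7 p := h.2.2.1
  have h2 : I7 p := h'.2.2.1
  unfold S7 at h1
  unfold I7 at h2
  omega

theorem kd_or {P : Finset ℕ} {e s : Bool} {p : ℕ} (h : Kd P e s p) :
    Kd P e true p ∨ Kd P e false p := by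
  cases s
  · exact Or.inr h
  · exact Or.inl h

/-- the members -/
def Mb (P : Finset ℕ) (e : Bool) (D : ℕ) : Prop :=
  Squarefree D ∧ ∀ p ∈ D.primeFactors, Kd P e true p ∨ Kd P e false p

/-- the state -/
def Iv (P : Finset ℕ) (e : Bool) (κ : ℕ → Bool) (k D : ℕ) : Prop :=
  Mb P e D ∧ (e = true → (D * ∏ i ∈ Finset.range k, rs (κ i)) % 8 = 1)

theorem coprime7 {P : Finset ℕ} (hP : ∀ q ∈ P, q.Prime ∧ q % 4 = 1) :
    Nat.Coprime (8 * ∏ q ∈ P, q) 7 := by
  refine Nat.Coprime.mul_left (by norm_num) (Nat.Coprime.prod_left fun q hq => ?_)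
  rw [Nat.coprime_primes (hP q hq).1 (by norm_num)]
  have := (hP q hq).2
  omega

theorem coprime8 {P : Finset ℕ} (hP : ∀ q ∈ P, q.Prime ∧ q % 4 = 1) :
    Nat.Coprime 8 (∏ q ∈ P, q) := by
  refine Nat.Coprime.prod_right fun q hq => ?_
  have h2 : Nat.Coprime 2 q := by
    rw [Nat.coprime_primes (by norm_num) (hP q hq).1]
    have := (hP q hq).2
    omega
  have : Nat.Coprime (2 ^ 3) q := Nat.Coprime.pow_left 3 h2
  exact this

/-- there are residue classes of the second kind -/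
theorem exists_inert {P : Finset ℕ} (hP : ∀ q ∈ P, q.Prime ∧ q % 4 = 1) (e : Bool) :
    ∃ r : ℕ, r.Coprime (QQ P) ∧ Kd P e false r := by
  have c1 := coprime8 hP
  have c2 := coprime7 hP
  obtain ⟨u, hu1, hu2⟩ := Nat.chineseRemainder c1 5 1
  obtain ⟨r, hr1, hr2⟩ := Nat.chineseRemainder c2 u 3
  have h8 : r % 8 = 5 := by
    have h : r ≡ u [MOD 8] := hr1.of_dvd (Dvd.intro _ rfl)
    have := h.trans hu1
    unfold Nat.ModEq at this
    omega
  have hq : ∀ q ∈ P, r ≡ 1 [MOD q] := fun q hq =>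
    (hr1.of_dvd ((Finset.dvd_prod_of_mem _ hq).mul_left _)).trans
      (hu2.of_dvd (Finset.dvd_prod_of_mem _ hq))
  have h7 : r % 7 = 3 := hr2
  have hnd : ∀ q ∈ P, ¬ q ∣ r := fun q hq' hd => by
    have h1 := (hq q hq').symm.dvd_iff (dvd_refl q)
    exact (hP q hq').1.one_lt.ne' (Nat.dvd_one.1 (h1.2 hd))
  refine ⟨r, ?_, ⟨by omega, fun _ => h8, Or.inl h7, fun q hq' => ⟨fun _ => ?_, hnd q hq'⟩⟩⟩
  · unfold QQ
    refine Nat.Coprime.mul_right ?_ (Nat.Coprime.prod_right fun q hq' => ?_)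
    · have h2 : Nat.Coprime r (2 ^ 3 * 7) := by
        refine Nat.Coprime.mul_right (Nat.Coprime.pow_right 3 ?_) ?_
        · rw [Nat.coprime_comm, Nat.Prime.coprime_iff_not_dvd Nat.prime_two]
          omega
        · rw [Nat.coprime_comm, Nat.Prime.coprime_iff_not_dvd (by norm_num)]
          omega
      exact h2
    · rw [Nat.coprime_comm, Nat.Prime.coprime_iff_not_dvd (hP q hq').1]
      exact hnd q hq'
  · have h1 : (r : ZMod q) = ((1 : ℕ) : ZMod q) := (ZMod.natCast_eq_natCast_iff _ _ _).2 (hq q hq')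
    rw [h1, Nat.cast_one]
    exact IsSquare.one

theorem dat {P : Finset ℕ} (hP : ∀ q ∈ P, q.Prime ∧ q % 4 = 1) (e : Bool) (κ : ℕ → Bool)
    (h0 : κ 0 = false) :
    Dat (QQ P) (Kd P e true) (fun k l => Kd P e (κ k) l) (fun k => κ k = true) (Iv P e κ) := by
  have hpos : 0 < QQ P := Nat.mul_pos (by norm_num)
    (Finset.prod_pos fun q hq => (hP q hq).1.pos)
  refine ⟨hpos, fun p _ h => h.1, fun p hp h hQ => ?_, fun k => ?_, fun k p _ h => ?_, ?_,
    fun k D h => h.1.1.ne_zero, ?_⟩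
  · have h1 : p ∣ 2 ^ 3 * 7 * ∏ q ∈ P, q := hQ
    have h4 : p % 4 = 1 := h.1
    have h7 : S7 p := h.2.2.1
    unfold S7 at h7
    rcases (Nat.Prime.dvd_mul hp).1 h1 with h2 | h2
    · rcases (Nat.Prime.dvd_mul hp).1 h2 with h3 | h3
      · have h5 := (Nat.prime_dvd_prime_iff_eq hp Nat.prime_two).1 (hp.dvd_of_dvd_pow h3)
        omega
      · have h5 := (Nat.prime_dvd_prime_iff_eq hp (by norm_num)).1 h3
        omega
    · obtain ⟨q, hq, h3⟩ := (Prime.dvd_finsetProd_iff hp.prime _).1 h2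
      have h5 := (Nat.prime_dvd_prime_iff_eq hp (hP q hq).1).1 h3
      exact (h.2.2.2 q hq).2 (h5 ▸ dvd_refl p)
  · refine ⟨fun u => Kd P e (κ k) (u : ZMod (QQ P)).val, ?_, fun p _ _ u hu => ?_⟩
    · cases hk : κ k
      · obtain ⟨r, h1, h2⟩ := exists_inert hP e
        refine ⟨ZMod.unitOfCoprime r h1, ?_⟩
        show Kd P e false ((ZMod.unitOfCoprime r h1 : (ZMod (QQ P))ˣ) : ZMod (QQ P)).val
        rw [ZMod.coe_unitOfCoprime, ZMod.val_natCast, kd_mod]
        exact h2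
      · refine ⟨1, ?_⟩
        show Kd P e true (((1 : (ZMod (QQ P))ˣ) : ZMod (QQ P))).val
        rw [Units.val_one]
        have h5 : (1 : ZMod (QQ P)) = ((1 : ℕ) : ZMod (QQ P)) := by rw [Nat.cast_one]
        rw [h5, ZMod.val_natCast, kd_mod]
        refine ⟨by norm_num, fun _ => by norm_num, Or.inl (by norm_num), fun q hq => ⟨?_, fun hd => ?_⟩⟩
        · rw [Nat.cast_one]
          exact IsSquare.one
        · exact (hP q hq).1.one_lt.ne' (Nat.dvd_one.1 hd)
    · show Kd P e (κ k) p ↔ Kd P e (κ k) (u : ZMod (QQ P)).val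
      rw [hu, ZMod.val_natCast, kd_mod]
  · show Kd P e true p ↔ κ k = true
    have h' : Kd P e (κ k) p := h
    cases hk : κ k
    · rw [hk] at h'
      exact ⟨fun h1 => absurd h' (not_both h1), fun h1 => absurd h1 (by simp)⟩
    · rw [hk] at h'
      exact ⟨fun _ => rfl, fun _ => h'⟩
  · show ¬ κ 0 = true
    rw [h0]
    simp
  · intro k D l ⟨h1, h3⟩ hl hC hlD
    have hco : D.Coprime l := ((hl.coprime_iff_not_dvd).2 hlD).symm
    refine ⟨⟨(Nat.squarefree_mul hco).2 ⟨h1.1, hl.prime.squarefree⟩, fun p hp => ?_⟩,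
      fun he => ?_⟩
    · rw [pf_mul h1.1.ne_zero hl, Finset.mem_insert] at hp
      rcases hp with rfl | hp
      · exact kd_or hC
      · exact h1.2 p hp
    · have h3' := h3 he
      rw [Finset.prod_range_succ] at h3'
      have e1 : D * ((∏ i ∈ Finset.range k, rs (κ i)) * rs (κ k)) =
          (D * ∏ i ∈ Finset.range k, rs (κ i)) * rs (κ k) := by ring
      have e2 : D * l * ∏ i ∈ Finset.range k, rs (κ i) =
          (D * ∏ i ∈ Finset.range k, rs (κ i)) * l := by ring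
      have hl8 : l % 8 = rs (κ k) % 8 := by
        have hC' : Kd P e (κ k) l := hC
        cases hk : κ k
        · rw [hk] at hC'
          exact hC'.2.1 he
        · rw [hk] at hC'
          exact hC'.2.1 he
      rw [e1] at h3'
      rw [e2, Nat.mul_mod, hl8, ← Nat.mul_mod]
      exact h3'

/-- the members are neutral for `P` -/
theorem neu_of {P : Finset ℕ} (hP : ∀ q ∈ P, q.Prime ∧ q % 4 = 1) {e : Bool} {D : ℕ}
    (hD : Mb P e D) : Neu P D.primeFactors := by
  refine ⟨?_, fun a ha hm b hb => ?_, fun b hb hm a ha => ?_⟩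
  · rw [Finset.disjoint_left]
    intro a ha haP
    rcases hD.2 a ha with h | h
    · exact (h.2.2.2 a haP).2 (dvd_refl a)
    · exact (h.2.2.2 a haP).2 (dvd_refl a)
  · have hpa := Nat.prime_of_mem_primeFactors ha
    have h7 := (mk_iff a).1 hm
    have hk : Kd P e true a := by
      rcases hD.2 a ha with h | h
      · exact h
      · have h2 : I7 a := h.2.2.1
        unfold S7 at h7
        unfold I7 at h2
        omega
    have h1 : IsSquare (a : ZMod b) := (hk.2.2.2 b hb).1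
    have h2 : nr b a = 0 := by
      unfold nr
      rw [if_pos h1]
    have hb4 := (hP b hb).2
    rw [Pool.Agent.R413.SQ.BOX.nr_symm hpa hk.1 (hP b hb).1 (by omega), h2]
  · have h7 := (mk_iff b).1 hm
    have h1 : IsSquare (a : ZMod b) := by
      rcases hD.2 a ha with h | h
      · exact (h.2.2.2 b hb).1
      · exact (h.2.2.2 b hb).1 h7
    unfold nr
    rw [if_pos h1]

/-- **the twists by products of elements of `P`** -/
theorem gd_twist {P : Finset ℕ} (hP : ∀ q ∈ P, q.Prime ∧ q % 4 = 1) {e : Bool} {N : ℕ}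
    (hN : Mb P e N) {U : Finset ℕ} (hU : U ⊆ P) :
    Gd n4 (N.primeFactors ∆ U) ↔ Gd n4 N.primeFactors ∧ Gd n4 U :=
  gd_symm (neu_of hP hN) hU

/-- the matrix -/
noncomputable def gm (D : ℕ) (T : Finset ℕ) : Matrix T T (ZMod 2) :=
  Matrix.of fun i j =>
    if i = j then n4 i + ∑ l ∈ D.primeFactors.erase i, nsq i l else nsq i j

/-- the law of the matrix -/
noncomputable def gl (D : ℕ) (T : Finset ℕ) (r : ℕ) : ℝ :=
  (Nat.card {y : T → ZMod 2 // (gm D T + diagonal y).rank + r = T.card} : ℝ) / 2 ^ T.card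

theorem gm_sub {D n : ℕ} {Sp : ℕ → Prop} {P : Fin n → ℕ} (h : En Sp D n P) :
    MM n4 D P = (gm D (D.primeFactors.filter Sp)).submatrix h.eq h.eq := by
  ext i j
  rw [Matrix.submatrix_apply]
  have hR : gm D (D.primeFactors.filter Sp) (h.eq i) (h.eq j) = if h.eq i = h.eq j then n4 (P i) +
      ∑ l ∈ D.primeFactors.erase (P i), nsq (P i) l else nsq (P i) (P j) := rfl
  rw [hR]
  unfold MM
  rw [Matrix.of_apply]
  by_cases hij : i = j
  · subst hij
    rw [if_pos rfl, if_pos rfl]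
  · rw [if_neg hij, if_neg (fun h' => hij (h.eq.injective h'))]

/-- the first law -/
theorem gl_mu {D n : ℕ} {Sp : ℕ → Prop} {P : Fin n → ℕ} (h : En Sp D n P) {T : Finset ℕ}
    (hT : D.primeFactors.filter Sp = T) (r : ℕ) : gl D T r = mu (MM n4 D P) r := by
  subst hT
  rw [Pool.Agent.U687.Q2.mu_share]
  have hn : (D.primeFactors.filter Sp).card = n := h.card
  unfold gl
  rw [hn]
  congr 2
  refine Nat.card_congr ((Equiv.arrowCongr h.eq.symm (Equiv.refl (ZMod 2))).subtypeEquiv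
    fun y => ?_)
  have h1 : MM n4 D P + diagonal (Equiv.arrowCongr h.eq.symm (Equiv.refl (ZMod 2)) y) =
      (gm D (D.primeFactors.filter Sp) + diagonal y).submatrix h.eq h.eq := by
    rw [gm_sub h]
    ext i j
    rw [Matrix.submatrix_apply, Matrix.add_apply, Matrix.add_apply, Matrix.submatrix_apply,
      Matrix.diagonal_apply, Matrix.diagonal_apply]
    congr 1
    by_cases hij : i = j
    · subst hij
      rw [if_pos rfl, if_pos rfl]
      rfl
    · rw [if_neg hij, if_neg (fun h' => hij (h.eq.injective h'))]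
  rw [h1, Matrix.rank_submatrix]

/-- the split prime factors -/
theorem filter_eq {P : Finset ℕ} {e : Bool} {D : ℕ} (hD : Mb P e D) :
    D.primeFactors.filter (Kd P e true) = D.primeFactors.filter S7 := by
  refine Finset.filter_congr fun p hp => ⟨fun h => h.2.2.1, fun h7 => ?_⟩
  rcases hD.2 p hp with h | h
  · exact h
  · have h2 : I7 p := h.2.2.1
    unfold S7 at h7
    unfold I7 at h2
    omega

/-- the criterion -/
theorem cor_iff {P : Finset ℕ} {e : Bool} {D n : ℕ} {Pn : Fin n → ℕ} (hD : Mb P e D)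
    (h : En (Kd P e true) D n Pn) : cor (MM n4 D Pn) = 0 ↔ Gd n4 D.primeFactors := by
  rw [Pool.Agent.R413.SQ.Dns.gd_iff]
  have hf : (D.primeFactors.filter fun p => Pool.Agent.R413.SQ.mk p = 1) = D.primeFactors.filter (Kd P e true) := by
    rw [filter_eq hD]
    exact Finset.filter_congr fun p _ => mk_iff p
  rw [hf]
  set Q := D.primeFactors.filter fun p => Pool.Agent.R413.SQ.mk p ≠ 1 with hQ
  set T := D.primeFactors.filter (Kd P e true) with hT
  have hdj : Disjoint Q T := by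
    rw [← hf, Finset.disjoint_left]
    intro p h1 h2
    exact (Finset.mem_filter.1 h1).2 (Finset.mem_filter.1 h2).2
  have hu : D.primeFactors = Q ∪ T := by
    rw [← hf, hQ, Finset.union_comm]
    exact (Finset.filter_union_filter_not_eq _ _).symm
  have hm : gm D T = Pool.Agent.Y698.SG.mat Q T := by
    ext i j
    have hL : gm D T i j = if i = j then n4 i +
      ∑ l ∈ D.primeFactors.erase i, nsq i l else nsq i j := rfl
    have hR : Pool.Agent.Y698.SG.mat Q T i j = if i = j then n4 i +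
      ∑ q ∈ Q, Pool.Agent.Y698.SG.nq i q +
      ∑ p ∈ T.erase i, Pool.Agent.Y698.SG.nq i p else Pool.Agent.Y698.SG.nq i j := rfl
    rw [hL, hR]
    by_cases hij : i = j
    · rw [if_pos hij, if_pos hij]
      have h1 : D.primeFactors.erase (i : ℕ) = Q ∪ T.erase i := by
        conv_lhs => rw [hu]
        rw [Finset.erase_union_distrib, Finset.erase_eq_of_notMem
          (fun h' => Finset.disjoint_left.1 hdj h' i.2)]
      rw [h1, Finset.sum_union (Finset.disjoint_of_subset_right (Finset.erase_subset _ _) hdj),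
        ← add_assoc]
      rfl
    · rw [if_neg hij, if_neg hij]
      rfl
  rw [← hm, Pool.Agent.U687.Q2.cor_zero_iff, gm_sub h, Matrix.det_submatrix_equiv_self]

/-- **lower bound** for a property implied by a good matrix -/
theorem low_of {P : Finset ℕ} (hP : ∀ q ∈ P, q.Prime ∧ q % 4 = 1) {e : Bool} {κ : ℕ → Bool}
    (h0 : κ 0 = false) (T : ℕ → ℝ≥0∞)
    (hT : ∀ N, Iv P e κ 0 N → Gd n4 N.primeFactors → 1 ≤ T N) (k : ℕ)
    {D : ℕ} (hD : Iv P e κ (k + 1) D) :
    ENNReal.ofReal ((TT^[ns (fun i => κ i = true) k] (gl D (D.primeFactors.filter S7))) 0) ≤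
      lo (fun k l => Kd P e (κ k) l) T (k + 1) D := by
  obtain ⟨Pn, h⟩ := exists_en (Kd P e true) D
  have h1 : gl D (D.primeFactors.filter S7) = mu (MM n4 D Pn) :=
    funext fun r => gl_mu h (filter_eq hD.1) r
  rw [h1, ← Pool.Agent.U150.XG.law_eq]
  refine lo_main n4 (dat hP e κ h0) T (pt 0) (Pool.Agent.U687.Q2.pt_nonneg 0)
    (fun N m P' hI hE => ?_) k D _ Pn hD h
  unfold pt
  by_cases hc : cor (MM n4 N P') = 0
  · rw [if_pos hc, ENNReal.ofReal_one]
    exact hT N hI ((cor_iff hI.1 hE).1 hc)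
  · rw [if_neg hc, ENNReal.ofReal_zero]
    exact zero_le

/-- **upper bound** for a property that implies a good matrix -/
theorem up_of {P : Finset ℕ} (hP : ∀ q ∈ P, q.Prime ∧ q % 4 = 1) {e : Bool} {κ : ℕ → Bool}
    (h0 : κ 0 = false) (T : ℕ → ℝ≥0∞) (hT1 : ∀ N, T N ≤ 1)
    (hT : ∀ N, Iv P e κ 0 N → ¬ Gd n4 N.primeFactors → T N = 0) (k : ℕ)
    {D : ℕ} (hD : Iv P e κ (k + 1) D) :
    up (fun k l => Kd P e (κ k) l) T (k + 1) D ≤
      ENNReal.ofReal ((TT^[ns (fun i => κ i = true) k] (gl D (D.primeFactors.filter S7))) 0) := by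
  obtain ⟨Pn, h⟩ := exists_en (Kd P e true) D
  have h1 : gl D (D.primeFactors.filter S7) = mu (MM n4 D Pn) :=
    funext fun r => gl_mu h (filter_eq hD.1) r
  rw [h1, ← Pool.Agent.U150.XG.law_eq]
  refine up_main n4 (dat hP e κ h0) T (pt 0) (Pool.Agent.U687.Q2.pt_nonneg 0)
    (fun N m P' hI hE => ?_) k D _ Pn hD h
  unfold pt
  by_cases hc : cor (MM n4 N P') = 0
  · rw [if_pos hc, ENNReal.ofReal_one]
    exact hT1 N
  · rw [if_neg hc, hT N hI fun h' => hc ((cor_iff hI.1 hE).2 h')]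
    exact zero_le

theorem law_dist {P : Finset ℕ} {e : Bool} (D : ℕ) (hD : Mb P e D) (s : ℕ) :
    |(TT^[s] (gl D (D.primeFactors.filter S7))) 0 - prob 0| ≤
      (∏ i ∈ Finset.range (D.primeFactors.filter S7).card, ((2 : ℝ) ^ (i + 1) - 1)) / 2 ^ s := by
  obtain ⟨Pn, h⟩ := exists_en (Kd P e true) D
  have h1 : gl D (D.primeFactors.filter S7) = mu (MM n4 D Pn) :=
    funext fun r => gl_mu h (filter_eq hD) r
  have h2 := Pool.Agent.U150.XG.law_dist (MM n4 D Pn) s 1
  rw [← h1, Finset.sum_range_one, Finset.sum_range_one, filter_eq hD] at h2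
  exact h2

theorem law_ge {P : Finset ℕ} {e : Bool} (D : ℕ) (hD : Mb P e D) (s : ℕ) :
    (1 / 2 : ℝ) ^ ((D.primeFactors.filter S7).card + s) ≤
      (TT^[s] (gl D (D.primeFactors.filter S7))) 0 := by
  obtain ⟨Pn, h⟩ := exists_en (Kd P e true) D
  have h1 : gl D (D.primeFactors.filter S7) = mu (MM n4 D Pn) :=
    funext fun r => gl_mu h (filter_eq hD) r
  have h2 := Pool.Agent.U150.XG.law_ge (MM n4 D Pn) s
  rw [← h1, filter_eq hD] at h2
  exact h2

end Pool.Agent.U150.XH
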