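import Pool.Agent.U150.XH.Def8

/-!
# All subfields of a multiquadratic field
-/

set_option autoImplicit false

open scoped Classical symmDiff

namespace Pool.Agent.U150.XH.Def8

open Pool.Agent.Results.MP_787500_nt.AllWeightsMultiquadraticX49 (RankZeroShaTwo Adm Good)

/-- the products of some of the `d_i` -/
def prods {n m : ℕ} (d : Fin n → ℕ) (T : Fin m → Finset (Fin n)) : Fin m → ℕ :=
  fun j => ∏ i ∈ T j, d i

theorem prod_symm {n : ℕ} {d : Fin n → ℕ} (hd : ∀ i, d i ≠ 0) (A B : Finset (Fin n)) :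
    ∃ k : ℕ, k ≠ 0 ∧ (∏ i ∈ A, d i) * ∏ i ∈ B, d i = (∏ i ∈ A ∆ B, d i) * k ^ 2 := by
  refine ⟨∏ i ∈ A ∩ B, d i, Finset.prod_ne_zero_iff.2 fun i _ => hd i, ?_⟩
  have e1 : ∏ i ∈ A, d i = (∏ i ∈ A \ B, d i) * ∏ i ∈ A ∩ B, d i := by
    rw [← Finset.prod_union (Finset.disjoint_sdiff_inter _ _), Finset.sdiff_union_inter]
  have e2 : ∏ i ∈ B, d i = (∏ i ∈ B \ A, d i) * ∏ i ∈ A ∩ B, d i := by
    rw [Finset.inter_comm, ← Finset.prod_union (Finset.disjoint_sdiff_inter _ _),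
      Finset.sdiff_union_inter]
  have e3 : ∏ i ∈ A ∆ B, d i = (∏ i ∈ A \ B, d i) * ∏ i ∈ B \ A, d i := by
    rw [← Finset.prod_union]
    · rfl
    · rw [Finset.disjoint_left]
      intro x hx hy
      exact (Finset.mem_sdiff.1 hx).2 (Finset.mem_sdiff.1 hy).1
  rw [e1, e2, e3]
  ring

theorem prods_sq {n m : ℕ} {d : Fin n → ℕ} (hd : ∀ i, d i ≠ 0) (T : Fin m → Finset (Fin n))
    (U : Finset (Fin m)) : ∃ (V : Finset (Fin n)) (k : ℕ), k ≠ 0 ∧
      ∏ j ∈ U, prods d T j = (∏ i ∈ V, d i) * k ^ 2 := by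
  induction U using Finset.induction_on with
  | empty => exact ⟨∅, 1, one_ne_zero, by simp⟩
  | insert a U ha ih =>
    obtain ⟨V, k, hk, h⟩ := ih
    obtain ⟨l, hl, h'⟩ := prod_symm hd (T a) V
    refine ⟨T a ∆ V, l * k, mul_ne_zero hl hk, ?_⟩
    rw [Finset.prod_insert ha, h]
    calc prods d T a * ((∏ i ∈ V, d i) * k ^ 2) = ((∏ i ∈ T a, d i) * ∏ i ∈ V, d i) * k ^ 2 := by
          unfold prods
          ring
      _ = _ := by
        rw [h']
        ring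

/-- the subfields -/
theorem good_sub {n m N : ℕ} {d : Fin n → ℕ} (hd : ∀ i, Adm (d i)) (h : Good N d)
    (T : Fin m → Finset (Fin n)) : Good N (prods d T) := by
  intro U
  obtain ⟨V, k, hk, h1⟩ := prods_sq (fun i => (hd i).1.ne_zero) T U
  obtain ⟨D, l, hl, h2, h3, h4⟩ := h V
  refine ⟨D, l * k, mul_ne_zero hl hk, h2, h3, ?_⟩
  calc N * ∏ j ∈ U, prods d T j = (N * ∏ i ∈ V, d i) * k ^ 2 := by rw [h1]; ring
    _ = D * (l * k) ^ 2 := by rw [h4]; ring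

end Pool.Agent.U150.XH.Def8
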